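import Pool.Agent.Work.MP_db9399_sg_helper35.AN
import Pool.Agent.Work.MP_db9399_cg_helper68.A1N
import Pool.Agent.Work.MP_db9399_cg_helper68.A34
import Pool.Agent.Work.MP_db9399_cg_helper83.A5N
import Pool.Agent.Work.MP_db9399_cg_helper46.A4
import Pool.Agent.Work.MP_db9399_cg_helper75.A3

/-! # SWG, block AN, unconditional (helper68) -/

set_option autoImplicit false

namespace Pool.Agent.Work.MP_db9399_sg.helper68

universe u

theorem stmt_A1N : Pool.Agent.Work.MP_db9399_sg.helper35.Stmt_A1N.{u} :=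
  fun a C n2 ha ha1 h2 hC =>
    Pool.Agent.Work.MP_db9399_cg.helper68.A1N a C n2 ha ha1 h2 hC

theorem stmt_A5N : Pool.Agent.Work.MP_db9399_sg.helper35.Stmt_A5N.{u} :=
  fun a n2 ha ha1 h2 => Pool.Agent.Work.MP_db9399_cg.helper83.stmt_A5N a n2 ha ha1 h2

theorem an_hold : Stmt_AN.{u} :=
  Pool.Agent.Work.MP_db9399_sg.helper35.stmt_AN stmt_A1N
    (Pool.Agent.Work.MP_db9399_cg.helper68.stmt_A34 Pool.Agent.Work.MP_db9399_cg.helper75.stmt_A3
      Pool.Agent.Work.MP_db9399_cg.helper46.stmt_A4) stmt_A5N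

end Pool.Agent.Work.MP_db9399_sg.helper68
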